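import Pool.Agent.helper83.FI4B.Spec

/-!
# Row fi4b:BIR (MP_baa4d7_al): a Galois automorphism in the inertia group
-/

set_option autoImplicit false

namespace Pool.Agent.FI4B

open Pool.Agent.helper58.DC Pool.Agent.DI Pool.Agent.GR Pool.Agent.OB Pool.Agent.DR Pool.Agent.FI Pool.Agent.FI3 Pool.Agent.FI4

theorem BIR_ext {F : Type} [Field F] (f : F →+* ℂ) (τ : F ≃+* F) :
    ∃ σ : ℂ ≃+* ℂ, ∀ x, σ (f x) = f (τ x) := by
  let _ : Algebra F ℂ := f.toAlgebra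
  have hf : ∀ x, algebraMap F ℂ x = f x := fun _ => rfl
  obtain ⟨s, hs⟩ := exists_isTranscendenceBasis F ℂ
  have := IsAlgClosed.isAlgClosure_of_transcendence_basis _ hs
  let e : Algebra.adjoin F (Set.range ((↑) : s → ℂ)) ≃+*
      Algebra.adjoin F (Set.range ((↑) : s → ℂ)) :=
    hs.1.aevalEquiv.symm.toRingEquiv.trans
      ((MvPolynomial.mapEquiv s τ).trans hs.1.aevalEquiv.toRingEquiv)
  refine ⟨IsAlgClosure.equivOfEquiv ℂ ℂ e, fun x => ?_⟩
  have h1 : f x = algebraMap (Algebra.adjoin F (Set.range ((↑) : s → ℂ))) ℂ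
      (algebraMap F _ x) := by
    rw [← hf]
    rfl
  rw [h1, IsAlgClosure.equivOfEquiv_algebraMap]
  have h2 : e (algebraMap F _ x) = algebraMap F _ (τ x) := by
    show hs.1.aevalEquiv (MvPolynomial.mapEquiv s τ (hs.1.aevalEquiv.symm (algebraMap F _ x))) = _
    rw [AlgEquiv.commutes]
    show hs.1.aevalEquiv (MvPolynomial.map (τ : F →+* F) (MvPolynomial.C x)) = _
    rw [MvPolynomial.map_C]
    exact AlgEquiv.commutes _ _
  rw [h2, ← hf]
  rfl

open Polynomial in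
theorem BIR_field (S : Finset ℂ) (hS : ∀ x ∈ S, IsIntegral ℤ x) :
    ∃ L : IntermediateField ℚ ℂ, NumberField L ∧ IsGalois ℚ L ∧ ∀ x ∈ S, x ∈ L := by
  obtain ⟨P, hP⟩ : ∃ P : ℚ[X], P = ∏ x ∈ S, minpoly ℚ x := ⟨_, rfl⟩
  have hint : ∀ x ∈ S, IsIntegral ℚ x := fun x hx => (hS x hx).tower_top
  have hP0 : P ≠ 0 := by
    rw [hP]
    exact Finset.prod_ne_zero_iff.2 fun x hx => minpoly.ne_zero (hint x hx)
  have hsp : (P.map (algebraMap ℚ ℂ)).Splits := IsAlgClosed.splits _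
  have h1 : P.IsSplittingField ℚ (IntermediateField.adjoin ℚ (P.rootSet ℂ)) :=
    IntermediateField.adjoin_rootSet_isSplittingField hsp
  have h2 : FiniteDimensional ℚ (IntermediateField.adjoin ℚ (P.rootSet ℂ)) :=
    Polynomial.IsSplittingField.finiteDimensional _ P
  have h3 : Normal ℚ (IntermediateField.adjoin ℚ (P.rootSet ℂ)) := Normal.of_isSplittingField P
  refine ⟨IntermediateField.adjoin ℚ (P.rootSet ℂ), { to_charZero := inferInstance, to_finiteDimensional := h2 },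
    { }, fun x hx => ?_⟩
  apply IntermediateField.subset_adjoin
  rw [Polynomial.mem_rootSet]
  refine ⟨hP0, ?_⟩
  rw [hP, map_prod]
  exact Finset.prod_eq_zero hx (minpoly.aeval ℚ x)

/-- the main construction: an automorphism in the inertia group -/
theorem BIR_sigma (hBIA : BIA_stmt) {p : ℕ} {M : Ideal (integralClosure ℤ ℂ)} (hS : Setup p M) (r s : ℕ)
    (hs : s.Coprime p) (ζ : ℂ) (hζ : IsPrimitiveRoot ζ (p ^ r)) (S : Finset ℂ) (hSi : ∀ x ∈ S, IsIntegral ℤ x) (hζS : ζ ∈ S) :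
    ∃ σ : ℂ ≃+* ℂ, σ ζ = ζ ^ s ∧ ∀ a ∈ S, InM M (σ a - a) := by
  obtain ⟨L, hL1, hL2, hL3⟩ := BIR_field S hSi
  let φ : NumberField.RingOfIntegers L →+* integralClosure ℤ ℂ :=
    ((algebraMap L ℂ).comp (algebraMap (NumberField.RingOfIntegers L) L)).codRestrict
      (integralClosure ℤ ℂ) (fun x => by
        have h1 : IsIntegral ℤ (algebraMap (NumberField.RingOfIntegers L) L x) := x.isIntegral_coe
        exact h1.map (algebraMap L ℂ).toIntAlgHom)
  have hφ : ∀ x : NumberField.RingOfIntegers L, ((φ x : integralClosure ℤ ℂ) : ℂ) = ((x : L) : ℂ) := fun _ => rfl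
  have hMp : M.IsPrime := hS.max.isPrime
  have hP : (M.comap φ).IsPrime := Ideal.IsPrime.comap φ
  have hpP : (p : NumberField.RingOfIntegers L) ∈ M.comap φ := by
    rw [Ideal.mem_comap, map_natCast]
    exact hS.mem
  have hζL : IsPrimitiveRoot (⟨ζ, hL3 ζ hζS⟩ : L) (p ^ r) :=
    IsPrimitiveRoot.of_map_of_injective (f := algebraMap L ℂ) hζ (algebraMap L ℂ).injective
  obtain ⟨τ, hτζ, hτ⟩ := hBIA p r hS.pr L (M.comap φ) hP hpP _ hζL s hs
  obtain ⟨σ, hσ⟩ := BIR_ext (algebraMap L ℂ) τ.toRingEquiv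
  refine ⟨σ, ?_, fun a ha => ?_⟩
  · have h1 := hσ ⟨ζ, hL3 ζ hζS⟩
    have h2 : τ.toRingEquiv (⟨ζ, hL3 ζ hζS⟩ : L) = (⟨ζ, hL3 ζ hζS⟩ : L) ^ s := hτζ
    rw [h2, map_pow] at h1
    exact h1
  · have hai : IsIntegral ℤ (⟨a, hL3 a ha⟩ : L) :=
      (isIntegral_algebraMap_iff (algebraMap L ℂ).injective).1 (hSi a ha)
    let x : NumberField.RingOfIntegers L := ⟨⟨a, hL3 a ha⟩, hai⟩
    have hyi : IsIntegral ℤ (τ (x : L) - (x : L)) := (hai.map (τ : L →ₐ[ℚ] L).toRingHom.toIntAlgHom).sub hai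
    let y : NumberField.RingOfIntegers L := ⟨τ (x : L) - (x : L), hyi⟩
    have h1 : y ∈ M.comap φ := hτ x y rfl
    have h2 := InM.coe hS (Ideal.mem_comap.1 h1)
    rw [hφ] at h2
    have h3 : ((y : L) : ℂ) = σ a - a := by
      have h4 : σ a = ((τ (x : L) : L) : ℂ) := hσ ⟨a, hL3 a ha⟩
      rw [h4]
      rfl
    rwa [h3] at h2

theorem BIR_one {p : ℕ} {M : Ideal (integralClosure ℤ ℂ)} (hS : Setup p M) {m : ℕ} (hm : ¬ p ∣ m) {w : ℂ}
    (hw : w ^ m = 1) (hM : InM M (w - 1)) (hi : IsIntegral ℤ w) : w = 1 := by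
  by_contra hne
  have h1 : ∑ j ∈ Finset.range m, w ^ j = 0 := by
    have h2 := geom_sum_mul w m
    rw [hw, sub_self] at h2
    exact (mul_eq_zero.1 h2).resolve_right (sub_ne_zero.2 hne)
  have h2 : ∀ j : ℕ, InM M (w ^ j - 1) := by
    intro j
    have h3 := geom_sum_mul w j
    rw [← h3]
    exact InM.mul_left hS (IntAt.sum hS _ fun i _ => (IntAt.of_isIntegral hS hi).pow hS i) hM
  have h3 : InM M (∑ j ∈ Finset.range m, (w ^ j - 1)) := InM.sum hS _ fun j _ => h2 j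
  rw [Finset.sum_sub_distrib, h1, zero_sub, Finset.sum_const, Finset.card_range, nsmul_eq_mul, mul_one] at h3
  have h4 := h3.neg
  rw [neg_neg, InM.natCast hS] at h4
  exact hm h4

theorem BIR_pow1 {w : ℂ} {m s : ℕ} (hw : w ^ m = 1) (hs : s ≡ 1 [MOD m]) : w ^ s = w := by
  have h1 : s % m = 1 % m := hs
  have h2 : w ^ s = w ^ 1 := by
    rw [pow_eq_pow_mod s hw, pow_eq_pow_mod 1 hw, h1]
  rw [h2, pow_one]

theorem BIR (hBIA : BIA_stmt) : BIR_stmt := by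
  classical
  intro p M hS n s hn hsn hcong T hT hTi
  by_cases hpn : p ∣ n
  swap
  · refine ⟨RingEquiv.refl ℂ, fun ζ hζ => ?_, fun t ht => ⟨hTi t ht, ?_⟩⟩
    · change ζ = ζ ^ s
      rw [BIR_pow1 hζ (hcong n dvd_rfl hpn)]
    · change InM M (t - t)
      rw [sub_self]
      exact InM.zero hS
  obtain ⟨r, m, hpm, hnm⟩ := Nat.exists_eq_pow_mul_and_not_dvd hn.ne' p hS.pr.ne_one
  have hsp : s.Coprime p := Nat.Coprime.coprime_dvd_right hpn hsn
  have hm0 : 0 < m := by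
    rcases Nat.eq_zero_or_pos m with h | h
    · rw [h, mul_zero] at hnm
      omega
    · exact h
  have hpr0 : 0 < p ^ r := pow_pos hS.pr.pos r
  obtain ⟨z, hz⟩ : ∃ z : ℂ, IsPrimitiveRoot z n := ⟨_, Complex.isPrimitiveRoot_exp n hn.ne'⟩
  have hzi : IsIntegral ℤ z := hz.isIntegral hn
  have hz0 : z ≠ 0 := hz.ne_zero hn.ne'
  have hzm : IsPrimitiveRoot (z ^ m) (p ^ r) := hz.pow hn (by rw [hnm, mul_comm])
  obtain ⟨e, he⟩ : ∃ e, e = z ^ p ^ r := ⟨_, rfl⟩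
  have hem : e ^ m = 1 := by
    rw [he, ← pow_mul, ← hnm, hz.pow_eq_one]
  have he0 : e ≠ 0 := by
    rw [he]
    exact pow_ne_zero _ hz0
  have hch : ∀ t : ℂ, ∃ a b : integralClosure ℤ ℂ, t ∈ T → b ∉ M ∧ t * (b : ℂ) = (a : ℂ) := by
    intro t
    by_cases ht : t ∈ T
    · obtain ⟨a, b, hb, h⟩ := hTi t ht
      exact ⟨a, b, fun _ => ⟨hb, h⟩⟩
    · exact ⟨0, 0, fun h => absurd h ht⟩
  choose a b hab using hch
  obtain ⟨S, hSd⟩ : ∃ S : Finset ℂ, S = {z ^ m, e} ∪ (hT.toFinset.image (fun t => ((a t : integralClosure ℤ ℂ) : ℂ)) ∪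
      hT.toFinset.image (fun t => ((b t : integralClosure ℤ ℂ) : ℂ))) := ⟨_, rfl⟩
  have hSi : ∀ x ∈ S, IsIntegral ℤ x := by
    intro x hx
    rw [hSd] at hx
    simp only [Finset.mem_union, Finset.mem_insert, Finset.mem_singleton, Finset.mem_image] at hx
    rcases hx with (h | h) | ⟨t, -, h⟩ | ⟨t, -, h⟩
    · rw [h]
      exact hzi.pow m
    · rw [h, he]
      exact hzi.pow _
    · rw [← h]
      exact (a t).2
    · rw [← h]
      exact (b t).2
  obtain ⟨σ, hσζ, hσ⟩ := BIR_sigma hBIA hS r s hsp (z ^ m) hzm S hSi (by rw [hSd]; simp)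
  have hσe : σ e = e := by
    have h1 : InM M (σ e - e) := hσ e (by rw [hSd]; simp)
    have h2 : (σ e * e⁻¹) ^ m = 1 := by
      rw [mul_pow, ← map_pow, inv_pow, hem, map_one, inv_one, mul_one]
    have h3 : IsIntegral ℤ (σ e * e⁻¹) := by
      refine IsIntegral.of_pow hm0 ?_
      rw [h2]
      exact isIntegral_one
    have h4 : IsIntegral ℤ e⁻¹ := by
      refine IsIntegral.of_pow hm0 ?_
      rw [inv_pow, hem, inv_one]
      exact isIntegral_one
    have h5 : InM M (σ e * e⁻¹ - 1) := by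
      have h6 : σ e * e⁻¹ - 1 = (σ e - e) * e⁻¹ := by
        field_simp
      rw [h6]
      exact InM.mul_right hS h1 (IntAt.of_isIntegral hS h4)
    have h6 := BIR_one hS hpm h2 h5 h3
    rwa [mul_inv_eq_one₀ he0] at h6
  have hes : e ^ s = e := BIR_pow1 hem (hcong m (by rw [hnm]; exact Dvd.intro_left _ rfl) hpm)
  have hσz : σ z = z ^ s := by
    have h1 : (σ z * (z ^ s)⁻¹) ^ m = 1 := by
      rw [mul_pow, ← map_pow, hσζ, inv_pow, ← pow_mul, ← pow_mul, mul_comm m s]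
      exact mul_inv_cancel₀ (pow_ne_zero _ hz0)
    have h2 : (σ z * (z ^ s)⁻¹) ^ p ^ r = 1 := by
      rw [mul_pow, ← map_pow, ← he, hσe, inv_pow, ← pow_mul, mul_comm s, pow_mul, ← he, hes]
      exact mul_inv_cancel₀ he0
    have h3 : orderOf (σ z * (z ^ s)⁻¹) ∣ 1 := by
      have hc : Nat.Coprime m (p ^ r) := Nat.Coprime.pow_right r ((Nat.Prime.coprime_iff_not_dvd hS.pr).2 hpm).symm
      have h4 := Nat.dvd_gcd (orderOf_dvd_of_pow_eq_one h1) (orderOf_dvd_of_pow_eq_one h2)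
      rwa [Nat.Coprime.gcd_eq_one hc] at h4
    have h4 : σ z * (z ^ s)⁻¹ = 1 := orderOf_eq_one_iff.1 (Nat.dvd_one.1 h3)
    rwa [mul_inv_eq_one₀ (pow_ne_zero _ hz0)] at h4
  refine ⟨σ, fun ζ hζ => ?_, fun t ht => ?_⟩
  · have hn' : NeZero n := ⟨hn.ne'⟩
    obtain ⟨i, -, hi⟩ := hz.eq_pow_of_pow_eq_one hζ
    rw [← hi, map_pow, hσz, ← pow_mul, ← pow_mul, mul_comm]
  · obtain ⟨hbM, htab⟩ := hab t ht
    have hat : ((a t : integralClosure ℤ ℂ) : ℂ) ∈ S := by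
      rw [hSd]
      exact Finset.mem_union_right _ (Finset.mem_union_left _ (Finset.mem_image_of_mem _ (hT.mem_toFinset.2 ht)))
    have hbt : ((b t : integralClosure ℤ ℂ) : ℂ) ∈ S := by
      rw [hSd]
      exact Finset.mem_union_right _ (Finset.mem_union_right _ (Finset.mem_image_of_mem _ (hT.mem_toFinset.2 ht)))
    have ha1 := hσ _ hat
    have hb1 := hσ _ hbt
    have hb0 : ((b t : integralClosure ℤ ℂ) : ℂ) ≠ 0 := hS.ne_zero hbM
    have hσb0 : σ ((b t : integralClosure ℤ ℂ) : ℂ) ≠ 0 := (map_ne_zero σ).2 hb0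
    have hai : IsIntegral ℤ (σ ((a t : integralClosure ℤ ℂ) : ℂ)) := (a t).2.map σ.toRingHom.toIntAlgHom
    have hbi : IsIntegral ℤ (σ ((b t : integralClosure ℤ ℂ) : ℂ)) := (b t).2.map σ.toRingHom.toIntAlgHom
    have hbM' : ¬ InM M ((b t : integralClosure ℤ ℂ) : ℂ) := fun h => hbM (InM.mem hS h)
    have hσbM : ¬ InM M (σ ((b t : integralClosure ℤ ℂ) : ℂ)) := by
      intro h
      have h1 := h.sub hS hb1
      rw [sub_sub_cancel] at h1
      exact hbM' h1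
    have iσb : IntAt M (σ ((b t : integralClosure ℤ ℂ) : ℂ))⁻¹ := (IntAt.of_isIntegral hS hbi).inv hS hσbM
    have ib : IntAt M ((b t : integralClosure ℤ ℂ) : ℂ)⁻¹ := (IntAt.coe hS (b t)).inv hS hbM'
    have et : t = ((a t : integralClosure ℤ ℂ) : ℂ) * ((b t : integralClosure ℤ ℂ) : ℂ)⁻¹ := by
      rw [← htab]
      field_simp
    have eσt : σ t = σ ((a t : integralClosure ℤ ℂ) : ℂ) * (σ ((b t : integralClosure ℤ ℂ) : ℂ))⁻¹ := by
      rw [← htab, map_mul]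
      field_simp
    constructor
    · rw [eσt]
      exact (IntAt.of_isIntegral hS hai).mul hS iσb
    · obtain ⟨A, hA⟩ : ∃ A, A = ((a t : integralClosure ℤ ℂ) : ℂ) := ⟨_, rfl⟩
      obtain ⟨B, hB⟩ : ∃ B, B = ((b t : integralClosure ℤ ℂ) : ℂ) := ⟨_, rfl⟩
      have e2 : σ t - t = ((σ A - A) * B - (σ B - B) * A) * ((σ B)⁻¹ * B⁻¹) := by
        rw [eσt, ← hA, ← hB]
        have e3 : t = A * B⁻¹ := by rw [hA, hB]; exact et
        have hB0 : B ≠ 0 := by rw [hB]; exact hb0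
        have hsB0 : σ B ≠ 0 := by rw [hB]; exact hσb0
        rw [e3]
        field_simp
        ring
      rw [e2, hA, hB]
      exact InM.mul_right hS ((InM.mul_right hS ha1 (IntAt.coe hS (b t))).sub hS
        (InM.mul_right hS hb1 (IntAt.coe hS (a t)))) (iσb.mul hS ib)

end Pool.Agent.FI4B
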